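import Mathlib

/-!
# Product-one subsequences in index order: length against weight, every group

Let `L` be a finite sequence (a list) of elements of finite order of a group `G`, and `S` a finite set
containing all powers of all terms. The weight of a subsequence is the sum of the reciprocals of the
orders of its terms. For every real `β > 1`: if `(β - 1) * length L ≥ β * (|S| - 1)` then some nonempty
subsequence has product `1` in index order and weight at most `β`.

Proof. `f x` = least weight, cut off at `β`, of a subsequence with product `x` of the terms read so far.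
Reading a term `a` of order `m` with `f (a⁻¹) + 1 / m > β` replaces `f x` by the minimum of `f x` and
`f (x * a⁻¹) + 1 / m`; along `1, a, a², …, a^(m-1)` the function climbs from `0` to more than `β - 1 / m`,
so the sum of `f` over `S` drops by more than `β - 1`.
-/

namespace Pool.Agent.Results.MP_94c9ac_al.LengthWeightTradeoff

variable {G : Type*} [Group G]

/-- The weight of a list of group elements: the sum of the reciprocals of the orders. -/
noncomputable def weight (l : List G) : ℝ := (l.map (fun a => (1 : ℝ) / (orderOf a : ℝ))).sum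

/-- `f` is a table of upper bounds, cut off at `β`, for the weights of subsequences of `L`. -/
def Table (β : ℝ) (L : List G) (f : G → ℝ) : Prop :=
  (∀ x, 0 ≤ f x) ∧ (∀ x, f x ≤ β) ∧ f 1 = 0 ∧
    ∀ x, f x < β → ∃ l : List G, l.Sublist L ∧ l.prod = x ∧ weight l ≤ f x

theorem weight_append (l₁ l₂ : List G) : weight (l₁ ++ l₂) = weight l₁ + weight l₂ := by
  simp [weight]

theorem weight_single (a : G) : weight [a] = 1 / (orderOf a : ℝ) := by
  simp [weight]

theorem step {β : ℝ} (S : Finset G) (L : List G) (a : G) (ha : ∀ i : ℕ, a ^ i ∈ S)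
    (hleg : ∀ l : List G, l.Sublist (L ++ [a]) → l ≠ [] → l.prod = 1 → β < weight l)
    (f : G → ℝ) (hf : Table β L f) :
    ∃ f' : G → ℝ, Table β (L ++ [a]) f' ∧ (∑ x ∈ S, f' x) + (β - 1) < ∑ x ∈ S, f x := by
  classical
  obtain ⟨h0, hb, h1, hw⟩ := hf
  have hfin : IsOfFinOrder a := by
    rw [← finite_powers]
    refine (S.finite_toSet).subset ?_
    rintro x ⟨i, rfl⟩
    exact ha i
  have hm : 0 < orderOf a := hfin.orderOf_pos
  have hmR : (0 : ℝ) < (orderOf a : ℝ) := by exact_mod_cast hm
  have hpos : (0 : ℝ) < 1 / (orderOf a : ℝ) := by positivity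
  -- legality of the new term
  have hlast : β < f a⁻¹ + 1 / (orderOf a : ℝ) := by
    rcases lt_or_eq_of_le (hb a⁻¹) with h | h
    · obtain ⟨l, hl, hp, hwl⟩ := hw _ h
      have := hleg (l ++ [a]) (hl.append (List.Sublist.refl _)) (by simp) (by simp [hp])
      rw [weight_append, weight_single] at this
      linarith
    · rw [h]; linarith
  refine ⟨fun x => if x = 1 then 0 else min (f x) (f (x * a⁻¹) + 1 / (orderOf a : ℝ)),
    ⟨?_, ?_, ?_, ?_⟩, ?_⟩
  · intro x
    by_cases hx : x = 1
    · simp [hx]
    · simp only [hx, if_false]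
      exact le_min (h0 x) (by have := h0 (x * a⁻¹); linarith)
  · intro x
    by_cases hx : x = 1
    · simp only [hx, if_true]
      have := hb (1 : G); rw [h1] at this; exact this
    · simp only [hx, if_false]
      exact (min_le_left _ _).trans (hb x)
  · simp
  · intro x hx
    by_cases hx1 : x = 1
    · refine ⟨[], List.nil_sublist _, by simp [hx1], ?_⟩
      simp [hx1, weight]
    · simp only [hx1, if_false] at hx ⊢
      rcases le_total (f x) (f (x * a⁻¹) + 1 / (orderOf a : ℝ)) with h | h
      · rw [min_eq_left h] at hx ⊢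
        obtain ⟨l, hl, hp, hwl⟩ := hw x hx
        exact ⟨l, hl.trans (List.sublist_append_left _ _), hp, hwl⟩
      · rw [min_eq_right h] at hx ⊢
        obtain ⟨l, hl, hp, hwl⟩ := hw (x * a⁻¹) (by linarith)
        refine ⟨l ++ [a], hl.append (List.Sublist.refl _), by simp [hp], ?_⟩
        rw [weight_append, weight_single]
        linarith
  · set f' : G → ℝ := fun x => if x = 1 then 0 else min (f x) (f (x * a⁻¹) + 1 / (orderOf a : ℝ))
      with hf'
    have hle : ∀ x, f' x ≤ f x := by
      intro x
      by_cases hx : x = 1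
      · simp [hf', hx, h1]
      · simp only [hf', hx, if_false]
        exact min_le_left _ _
    -- the powers of `a`
    have hinj : Set.InjOn (fun i : ℕ => a ^ i) (Finset.range (orderOf a) : Set ℕ) := by
      intro i hi j hj hij
      simp only [Finset.coe_range, Set.mem_Iio] at hi hj
      exact pow_injOn_Iio_orderOf (by simpa using hi) (by simpa using hj) hij
    have hsub : (Finset.range (orderOf a)).image (fun i : ℕ => a ^ i) ⊆ S := by
      intro x hx
      obtain ⟨i, _, rfl⟩ := Finset.mem_image.1 hx
      exact ha i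
    have hsum1 : ∑ i ∈ Finset.range (orderOf a), (f (a ^ i) - f' (a ^ i)) ≤
        ∑ x ∈ S, (f x - f' x) := by
      rw [← Finset.sum_image (f := fun x => f x - f' x) (s := Finset.range (orderOf a))
        (g := fun i : ℕ => a ^ i) (fun i hi j hj h => hinj (by simpa using hi) (by simpa using hj) h)]
      exact Finset.sum_le_sum_of_subset_of_nonneg hsub
        (fun x _ _ => by have := hle x; linarith)
    obtain ⟨k, hk⟩ : ∃ k, orderOf a = k + 1 := ⟨orderOf a - 1, by omega⟩
    have hak : a ^ k = a⁻¹ := by
      have : a ^ (k + 1) = 1 := by rw [← hk]; exact pow_orderOf_eq_one a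
      rw [pow_succ] at this
      exact eq_inv_of_mul_eq_one_left this
    have hterm : ∀ i ∈ Finset.range k, f (a ^ (i + 1)) - f (a ^ i) - 1 / (orderOf a : ℝ) ≤
        f (a ^ (i + 1)) - f' (a ^ (i + 1)) := by
      intro i hi
      have hi' : i < k := Finset.mem_range.1 hi
      have hne : a ^ (i + 1) ≠ 1 := by
        intro h
        have := orderOf_le_of_pow_eq_one (Nat.succ_pos i) h
        omega
      have : f' (a ^ (i + 1)) ≤ f (a ^ i) + 1 / (orderOf a : ℝ) := by
        simp only [hf', hne, if_false]
        refine (min_le_right _ _).trans ?_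
        rw [pow_succ, mul_inv_cancel_right]
      linarith
    have hsum2 : f a⁻¹ - (k : ℝ) * (1 / (orderOf a : ℝ)) ≤
        ∑ i ∈ Finset.range (orderOf a), (f (a ^ i) - f' (a ^ i)) := by
      rw [hk, Finset.sum_range_succ', ← hk]
      have h00 : f (a ^ 0) - f' (a ^ 0) = 0 := by simp [hf', h1]
      rw [h00, add_zero]
      refine le_trans ?_ (Finset.sum_le_sum hterm)
      rw [Finset.sum_sub_distrib, Finset.sum_range_sub (fun i => f (a ^ i)) k, hak]
      simp [h1]
    have hkm : (k : ℝ) * (1 / (orderOf a : ℝ)) = 1 - 1 / (orderOf a : ℝ) := by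
      have : (orderOf a : ℝ) = k + 1 := by rw [hk]; push_cast; ring
      field_simp
      linarith
    have hfin2 : β - 1 < ∑ x ∈ S, (f x - f' x) := by
      have := hsum2.trans hsum1
      rw [hkm] at this
      linarith
    rw [Finset.sum_sub_distrib] at hfin2
    linarith

theorem tables {β : ℝ} (hβ : 1 < β) (S : Finset G) (hS1 : (1 : G) ∈ S) (L : List G) :
    (∀ a ∈ L, ∀ i : ℕ, a ^ i ∈ S) →
    (∀ l : List G, l.Sublist L → l ≠ [] → l.prod = 1 → β < weight l) →
    ∃ f : G → ℝ, Table β L f ∧
      (∑ x ∈ S, f x) + (β - 1) * L.length ≤ β * ((S.card : ℝ) - 1) := by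
  classical
  induction L using List.reverseRecOn with
  | nil =>
    intro _ _
    refine ⟨fun x => if x = 1 then 0 else β, ⟨?_, ?_, by simp, ?_⟩, ?_⟩
    · intro x; by_cases hx : x = 1 <;> simp [hx]; linarith
    · intro x; by_cases hx : x = 1 <;> simp [hx]; linarith
    · intro x hx
      by_cases h : x = 1
      · exact ⟨[], List.Sublist.refl _, by simp [h], by simp [h, weight]⟩
      · simp [h] at hx
    · have : ∑ x ∈ S, (if x = 1 then (0 : ℝ) else β) = β * ((S.card : ℝ) - 1) := by
        rw [← Finset.add_sum_erase S _ hS1]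
        have h2 : ∑ x ∈ S.erase 1, (if x = 1 then (0 : ℝ) else β) = ∑ x ∈ S.erase (1 : G), β :=
          Finset.sum_congr rfl (fun x hx => by simp [Finset.ne_of_mem_erase hx])
        rw [h2, Finset.sum_const, Finset.card_erase_of_mem hS1, nsmul_eq_mul]
        have hc : 1 ≤ S.card := Finset.card_pos.2 ⟨1, hS1⟩
        push_cast [Nat.cast_sub hc]
        simp
        ring
      rw [this]
      simp
  | append_singleton L a ih =>
    intro hS hleg
    obtain ⟨f, hf, hsum⟩ := ih (fun b hb => hS b (by simp [hb]))
      (fun l hl => hleg l (hl.trans (List.sublist_append_left _ _)))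
    obtain ⟨f', hf', hlt⟩ := step S L a (hS a (by simp)) hleg f hf
    refine ⟨f', hf', ?_⟩
    simp only [List.length_append, List.length_singleton]
    push_cast
    nlinarith

/-- Let `L` be a nonempty finite sequence of elements of a group `G`, let the finite set `S` contain
all powers of all terms of `L`, and let `β > 1` be a real number with
`(β - 1) * length L ≥ β * (|S| - 1)`. Then `L` has a nonempty subsequence whose product in index order
is `1` and in which the sum of the reciprocals of the orders of the terms is at most `β`. -/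
theorem result (G : Type*) [Group G] (β : ℝ) (hβ : 1 < β) (S : Finset G) (L : List G) (hL : L ≠ [])
    (hS : ∀ a ∈ L, ∀ i : ℕ, a ^ i ∈ S)
    (hlen : β * ((S.card : ℝ) - 1) ≤ (β - 1) * L.length) :
    ∃ l : List G, l.Sublist L ∧ l ≠ [] ∧ l.prod = 1 ∧
      (l.map (fun a => (1 : ℝ) / (orderOf a : ℝ))).sum ≤ β := by
  classical
  by_contra hcon
  push_neg at hcon
  have hleg : ∀ l : List G, l.Sublist L → l ≠ [] → l.prod = 1 → β < weight l := hcon
  obtain ⟨b, hb⟩ := List.exists_mem_of_ne_nil L hL
  have hS1 : (1 : G) ∈ S := by simpa using hS b hb 0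
  rcases List.eq_nil_or_concat L with h | ⟨L', a, h⟩
  · exact hL h
  · subst h
    rw [List.concat_eq_append] at *
    obtain ⟨f, hf, hsum⟩ := tables hβ S hS1 L' (fun b hb => hS b (by simp [hb]))
      (fun l hl => hleg l (hl.trans (List.sublist_append_left _ _)))
    obtain ⟨f', hf', hlt⟩ := step S L' a (hS a (by simp)) hleg f hf
    have hnn : 0 ≤ ∑ x ∈ S, f' x := Finset.sum_nonneg (fun x _ => hf'.1 x)
    simp only [List.length_append, List.length_singleton] at hlen
    push_cast at hlen
    nlinarith

end Pool.Agent.Results.MP_94c9ac_al.LengthWeightTradeoff
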