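import Pool.Agent.Helper69.WZ.Grp4

/-!
MP_94c9ac_al, Q2 (index order): a bound for every finite group which is exactly `|G|` (that is, Q2)
for all finite groups whose element orders `n` have at most two prime divisors and are prime powers
or divisible by neither 4 nor 18.

The number of terms is bounded by a potential: for each cyclic subgroup `D` a number `Φ_D`, computed
from the weights of the elements of `D`, at most `φ(|D|) + extra |D|`; each term of a sequence
without the required subsequence raises one of these numbers.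

Co-authors: helper95 (UNI, NEWL), helper64 (TWOQ), helper72 (CASE), helper63 (ARI), helper43 (EVEN),
helper49 (ODD), helper17 (RES, ARCO), helper33 (ARCE), helper73 (ARC1, INV), helper74 (ARI2).
-/

set_option autoImplicit false

namespace Pool.Agent.Results.MP_94c9ac_al.TwoPrimeFactors

open Pool.Agent.Results.MP_94c9ac_al.IndexOrderCovers Pool.Agent.TH106.PrimePow
open Pool.Agent.TH106.PPClasses
open Pool.Agent.Helper69.WZ Pool.Agent.Helper69.WZ.T Pool.Agent.Helper69.WZ.Grp3
open Pool.Agent.Helper69.WZ.Grp4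

/-- The sequence `g` has a nonempty subsequence (a strictly increasing list `l` of indices) whose
terms, multiplied in index order, give the identity, and whose weight is at most one. -/
def IndexOrderZeroSum {G : Type} [Group G] {n : ℕ} (g : Fin n → G) : Prop :=
  ∃ l : List (Fin n), l ≠ [] ∧ l.Pairwise (· < ·) ∧ (l.map g).prod = 1 ∧
    (l.map (fun k => (1 : ℚ) / (orderOf (g k) : ℚ))).sum ≤ 1

/-- `n` is a prime power `p ^ k`, `k ≥ 1`, or has exactly two prime divisors and is divisible neither
by 4 nor by 18. -/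
def Admissible (n : ℕ) : Prop :=
  (∃ p k : ℕ, p.Prime ∧ 1 ≤ k ∧ n = p ^ k) ∨
  ((∃ p q a b : ℕ, p.Prime ∧ q.Prime ∧ p ≠ q ∧ 1 ≤ a ∧ 1 ≤ b ∧ n = p ^ a * q ^ b) ∧
    ¬ 4 ∣ n ∧ ¬ 18 ∣ n)

lemma ord_two {q a b : ℕ} (hq : q.Prime) (hq2 : q ≠ 2) (ha : 1 ≤ a) (hb : 1 ≤ b)
    (h4 : ¬ 4 ∣ 2 ^ a * q ^ b) (h18 : ¬ 18 ∣ 2 ^ a * q ^ b) : OrdB (2 ^ a * q ^ b) := by
  have ha1 : a = 1 := by
    by_contra h
    apply h4
    have h1 : 2 ^ 2 ∣ 2 ^ a := pow_dvd_pow 2 (by omega)
    exact (show (4 : ℕ) = 2 ^ 2 by norm_num) ▸ h1.mul_right _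
  subst ha1
  rw [pow_one] at h4 h18 ⊢
  by_cases hq3 : q = 3
  · subst hq3
    have hb1 : b = 1 := by
      by_contra h
      apply h18
      have h1 : 3 ^ 2 ∣ 3 ^ b := pow_dvd_pow 3 (by omega)
      exact (show (18 : ℕ) = 2 * 3 ^ 2 by norm_num) ▸ Nat.mul_dvd_mul_left 2 h1
    subst hb1
    exact Or.inr (Or.inl (by norm_num))
  · refine Or.inr (Or.inr (Or.inr ⟨q, b, hq, ?_, hb, rfl⟩))
    have h2 := hq.two_le
    have h3 : q ≠ 4 := by
      rintro rfl
      exact absurd hq (by norm_num)
    omega

lemma Admissible.ord {m : ℕ} (h : Admissible m) : OrdB m := by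
  rcases h with ⟨p, k, hp, hk, rfl⟩ | ⟨⟨p, q, a, b, hp, hq, hpq, ha, hb, rfl⟩, h4, h18⟩
  · exact Or.inl (hp.isPrimePow.pow (by omega))
  · by_cases hp2 : p = 2
    · subst hp2
      exact ord_two hq (fun h => hpq h.symm) ha hb h4 h18
    · by_cases hq2 : q = 2
      · subst hq2
        rw [mul_comm] at h4 h18 ⊢
        exact ord_two hp hp2 hb ha h4 h18
      · exact Or.inr (Or.inr (Or.inl ⟨p, q, a, b, hp, hq, hp2, hq2, hpq, ha, hb, rfl⟩))

open Classical in
/-- `0` if `m` is admissible; otherwise the number of odd `k`, `1 ≤ k < m`, not coprime to `m`, such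
that `k - 1` and `k + 1` are not both coprime to `m`. -/
noncomputable def extra (m : ℕ) : ℕ :=
  if Admissible m then 0
  else ((Finset.Icc 1 (m - 1)).filter (fun k => k % 2 = 1 ∧ ¬ Nat.Coprime k m ∧
    ¬ (Nat.Coprime (k - 1) m ∧ Nat.Coprime (k + 1) m))).card

lemma psi_le (m : ℕ) : psi m ≤ m.totient + extra m := by
  classical
  have h1 : ((Finset.Icc 1 (m - 1)).filter (fun u => Nat.Coprime u m)).card ≤ m.totient := by
    rw [Nat.totient_eq_card_coprime]
    apply Finset.card_le_card
    intro t ht
    rw [Finset.mem_filter, Finset.mem_Icc] at ht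
    rw [Finset.mem_filter, Finset.mem_range]
    exact ⟨by omega, ht.2.symm⟩
  by_cases hA : Admissible m
  · have hO := hA.ord
    refine le_trans ?_ (h1.trans (Nat.le_add_right _ _))
    apply Finset.card_le_card
    intro t ht
    rw [Finset.mem_filter] at ht ⊢
    rcases ht.2 with h | h
    · exact ⟨ht.1, h⟩
    · exact absurd hO h.1
  · have h2 : (Finset.Icc 1 (m - 1)).filter (fun u => Lev m u) ⊆
        (Finset.Icc 1 (m - 1)).filter (fun u => Nat.Coprime u m) ∪
        (Finset.Icc 1 (m - 1)).filter (fun k => k % 2 = 1 ∧ ¬ Nat.Coprime k m ∧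
          ¬ (Nat.Coprime (k - 1) m ∧ Nat.Coprime (k + 1) m)) := by
      intro t ht
      rw [Finset.mem_union, Finset.mem_filter, Finset.mem_filter]
      rw [Finset.mem_filter] at ht
      by_cases hc : Nat.Coprime t m
      · exact Or.inl ⟨ht.1, hc⟩
      · rcases ht.2 with h | h
        · exact absurd h hc
        · exact Or.inr ⟨ht.1, h.2.1, hc, h.2.2⟩
    have h3 := (Finset.card_le_card h2).trans (Finset.card_union_le _ _)
    unfold extra
    rw [if_neg hA]
    unfold psi
    omega

open Classical in
/-- **Q2 in part, and a bound for all finite groups.** Let `G` be a finite group with commutative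
subgroups `A ∈ S` (`S` may be empty), any two of them meeting in the identity only, such that no
power other than 1 of an element outside these subgroups lies in one of them. Then every sequence
of `n ≥ |G| + ∑ extra |x| / φ(|x|)` elements of `G` (the sum is over the `x` outside the subgroups)
has a nonempty subsequence of weight at most one whose product in index order is the identity.
If the orders of all `x ≠ 1` outside the subgroups are admissible, this holds for `n = |G|`. -/
theorem result (G : Type) [Group G] [Fintype G] (S : Finset (Subgroup G))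
    (hc : ∀ A ∈ S, ∀ x ∈ A, ∀ y ∈ A, x * y = y * x)
    (hd : ∀ A ∈ S, ∀ B ∈ S, A ≠ B → A ⊓ B = ⊥)
    (hx : ∀ x : G, (∀ A ∈ S, x ∉ A) → ∀ i : ℕ, x ^ i ≠ 1 → ∀ A ∈ S, x ^ i ∉ A)
    (n : ℕ)
    (hn : (Fintype.card G : ℚ) + ∑ x : G with ∀ A ∈ S, x ∉ A,
      (extra (orderOf x) : ℚ) / ((orderOf x).totient : ℚ) ≤ n)
    (g : Fin n → G) : IndexOrderZeroSum g := by
  classical
  by_cases h1 : ∃ i, g i = 1
  · obtain ⟨i, hi⟩ := h1
    exact ⟨[i], by simp, by simp, by simpa using hi, by simp [hi]⟩
  push Not at h1
  -- the elements outside the subgroups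
  set E : Finset G := Finset.univ.filter (fun x => x ≠ 1 ∧ ∀ A ∈ S, x ∉ A) with hE
  have hE1 : ∀ x ∈ E, x ≠ 1 := by
    intro x hx
    rw [hE, Finset.mem_filter] at hx
    exact hx.2.1
  have hEp : ∀ x ∈ E, ∀ i : ℕ, x ^ i ≠ 1 → x ^ i ∈ E := by
    intro x hxE i hi
    rw [hE, Finset.mem_filter] at hxE ⊢
    exact ⟨Finset.mem_univ _, hi, fun A hA => hx x hxE.2.2 i hi A hA⟩
  have hcard : ∑ A ∈ S, (Nat.card A - 1) + E.card < Nat.card G := by
    have h2 : ∀ A : Subgroup G, Nat.card A - 1 =
        ((Finset.univ.filter (fun x : G => x ∈ A)).erase 1).card := by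
      intro A
      rw [Finset.card_erase_of_mem (by simp [A.one_mem])]
      congr 1
      rw [Nat.card_eq_fintype_card, Fintype.card_subtype]
    rw [Finset.sum_congr rfl (fun A _ => h2 A), ← Finset.card_biUnion]
    · rw [← Finset.card_union_of_disjoint]
      · have h3 : (S.biUnion (fun A => (Finset.univ.filter (fun x : G => x ∈ A)).erase 1)) ∪ E ⊆
            Finset.univ.erase 1 := by
          intro x hx
          rw [Finset.mem_erase]
          refine ⟨?_, Finset.mem_univ _⟩
          rw [Finset.mem_union] at hx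
          rcases hx with hx | hx
          · rw [Finset.mem_biUnion] at hx
            obtain ⟨A, _, hx⟩ := hx
            exact (Finset.mem_erase.1 hx).1
          · exact (Finset.mem_filter.1 hx).2.1
        have h4 := Finset.card_le_card h3
        rw [Finset.card_erase_of_mem (Finset.mem_univ _), Finset.card_univ] at h4
        have h5 : 0 < Fintype.card G := Fintype.card_pos
        rw [Nat.card_eq_fintype_card]
        omega
      · rw [Finset.disjoint_left]
        intro x hx hx'
        rw [Finset.mem_biUnion] at hx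
        obtain ⟨A, hA, hx⟩ := hx
        have h6 := (Finset.mem_filter.1 (Finset.mem_erase.1 hx).2).2
        exact (Finset.mem_filter.1 hx').2.2 A hA h6
    · intro A hA B hB hAB
      rw [Function.onFun, Finset.disjoint_left]
      intro x hx hx'
      rw [Finset.mem_erase, Finset.mem_filter] at hx hx'
      have h5 : x ∈ A ⊓ B := ⟨hx.2.2, hx'.2.2⟩
      rw [hd A hA B hB hAB, Subgroup.mem_bot] at h5
      exact hx.1 h5
  -- the bound for the terms outside the subgroups
  have hpsi : ∑ x ∈ E, (psi (orderOf x) : ℚ) / ((orderOf x).totient : ℚ) ≤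
      (E.card : ℚ) + ∑ x ∈ E, (extra (orderOf x) : ℚ) / ((orderOf x).totient : ℚ) := by
    have e1 : (E.card : ℚ) = ∑ x ∈ E, (1 : ℚ) := by simp
    rw [e1, ← Finset.sum_add_distrib]
    apply Finset.sum_le_sum
    intro x _
    have hφ : (0 : ℚ) < ((orderOf x).totient : ℚ) := by
      exact_mod_cast Nat.totient_pos.2 (orderOf_pos x)
    have h2 : (psi (orderOf x) : ℚ) ≤ ((orderOf x).totient : ℚ) + (extra (orderOf x) : ℚ) := by
      exact_mod_cast psi_le (orderOf x)
    calc (psi (orderOf x) : ℚ) / ((orderOf x).totient : ℚ) ≤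
        (((orderOf x).totient : ℚ) + (extra (orderOf x) : ℚ)) / ((orderOf x).totient : ℚ) :=
          div_le_div_of_nonneg_right h2 hφ.le
      _ = 1 + (extra (orderOf x) : ℚ) / ((orderOf x).totient : ℚ) := by
          rw [add_div, div_self hφ.ne']
  have hsum : ∑ x ∈ E, (extra (orderOf x) : ℚ) / ((orderOf x).totient : ℚ) ≤
      ∑ x : G with ∀ A ∈ S, x ∉ A, (extra (orderOf x) : ℚ) / ((orderOf x).totient : ℚ) := by
    apply Finset.sum_le_sum_of_subset_of_nonneg
    · intro x hx
      rw [hE, Finset.mem_filter] at hx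
      rw [Finset.mem_filter]
      exact ⟨hx.1, hx.2.2⟩
    · intro x _ _
      positivity
  set I : Finset (Fin n) := Finset.univ.filter (fun i => ∃ A ∈ S, g i ∈ A) with hI
  by_cases hlt : ∑ A ∈ S, (Nat.card A - 1) < I.card
  · refine of_fiber S (fun A => Nat.card A) (fun A hA => good_comm A ?_) g I
      (fun i hi => (Finset.mem_filter.1 hi).2) hlt
    rintro ⟨x, hx⟩ ⟨y, hy⟩
    exact Subtype.ext (hc A hA x hx y hy)
  · apply of_hit g (fun i => decide (¬ ∃ A ∈ S, g i ∈ A))
    apply Grp4.main E hE1 hEp
    · intro x hx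
      rw [List.mem_map] at hx
      obtain ⟨i, hi, rfl⟩ := hx
      rw [List.mem_filter] at hi
      rw [hE, Finset.mem_filter]
      refine ⟨Finset.mem_univ _, h1 i, ?_⟩
      have := of_decide_eq_true hi.2
      push Not at this
      exact this
    · rw [List.length_map]
      have h7 : ((List.finRange n).filter
          (fun i => decide (¬ ∃ A ∈ S, g i ∈ A))).length = (Finset.univ \ I).card := by
        rw [← List.toFinset_card_of_nodup ((List.nodup_finRange _).filter _)]
        congr 1
        ext i
        simp [hI]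
      have h8 := Finset.card_sdiff_add_card_eq_card (Finset.subset_univ I)
      rw [Finset.card_fin] at h8
      rw [h7]
      have h9 : (n : ℚ) = ((Finset.univ \ I).card : ℚ) + (I.card : ℚ) := by exact_mod_cast h8.symm
      have h10 : (I.card : ℚ) + (E.card : ℚ) + 1 ≤ (Fintype.card G : ℚ) := by
        rw [Nat.card_eq_fintype_card] at hcard
        exact_mod_cast (by omega : I.card + E.card + 1 ≤ Fintype.card G)
      linarith

end Pool.Agent.Results.MP_94c9ac_al.TwoPrimeFactors
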